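import Pool.Agent.Helper52.NF.St2

/-! # Project NF, module LFA (averaging) -/

set_option autoImplicit false

namespace Pool.Agent.Helper27.NF

open Pool.Agent.Helper52.NF Finset

open Classical in
private theorem sum_s {A B : Type} [Fintype B] (I : A → B → Prop) (T : Finset A) :
    ∑ f ∈ T, (Finset.univ.filter (fun z : B => 4 ≤ (Dz I T z).card ∧ I f z)).card =
      ∑ z ∈ V4 I T, (Dz I T z).card := by
  have h1 : ∀ f ∈ T, (Finset.univ.filter (fun z : B => 4 ≤ (Dz I T z).card ∧ I f z)).card =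
      ∑ z ∈ V4 I T, if I f z then 1 else 0 := by
    intro f _
    rw [← Finset.card_filter]
    unfold V4
    rw [Finset.filter_filter]
  have h2 : ∀ z ∈ V4 I T, (Dz I T z).card = ∑ f ∈ T, if I f z then 1 else 0 := by
    intro z _
    rw [← Finset.card_filter]
    rfl
  rw [Finset.sum_congr rfl h1, Finset.sum_congr rfl h2, Finset.sum_comm]

open Classical in
private theorem mem_PP {A B : Type} (I : A → B → Prop) (T : Finset A) (p : Finset A) :
    p ∈ PP I T ↔ (p ⊆ T ∧ p.card = 2) ∧ ((∃ z, p ⊆ Dz I T z) ∧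
      ∀ z, p ⊆ Dz I T z → (Dz I T z).card < 4) := by
  unfold PP
  rw [Finset.mem_filter, Finset.mem_powersetCard]

open Classical in
private theorem d_le {A B : Type} [Fintype B] (I : A → B → Prop) (T : Finset A) (f : A)
    (hf : f ∈ T) :
    (T.filter (fun g => g ≠ f ∧ (∃ z, I f z ∧ I g z) ∧
      ∀ z, I f z → I g z → (Dz I T z).card < 4)).card ≤
      ((PP I T).filter (fun p => f ∈ p)).card := by
  have hmem : ∀ g ∈ T, ∀ z, (({f, g} : Finset A) ⊆ Dz I T z ↔ I f z ∧ I g z) := by
    intro g hg z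
    unfold Dz
    rw [Finset.insert_subset_iff, Finset.singleton_subset_iff, Finset.mem_filter,
      Finset.mem_filter]
    tauto
  apply Finset.card_le_card_of_injOn (fun g => ({f, g} : Finset A))
  · intro g hg
    rw [Finset.mem_coe, Finset.mem_filter] at hg
    obtain ⟨hgT, hne, ⟨z, hz⟩, hall⟩ := hg
    rw [Finset.mem_coe, Finset.mem_filter]
    refine ⟨?_, Finset.mem_insert_self _ _⟩
    rw [mem_PP]
    refine ⟨⟨?_, Finset.card_pair (Ne.symm hne)⟩, ⟨z, (hmem g hgT z).2 hz⟩, ?_⟩
    · rw [Finset.insert_subset_iff, Finset.singleton_subset_iff]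
      exact ⟨hf, hgT⟩
    · intro z' hz'
      obtain ⟨h1, h2⟩ := (hmem g hgT z').1 hz'
      exact hall z' h1 h2
  · intro g hg g' hg' h
    rw [Finset.mem_coe, Finset.mem_filter] at hg hg'
    have h1 : g ∈ ({f, g'} : Finset A) := by
      have h2 : ({f, g} : Finset A) = {f, g'} := h
      rw [← h2]
      simp
    rw [Finset.mem_insert, Finset.mem_singleton] at h1
    exact h1.resolve_left hg.2.1

open Classical in
private theorem sum_d {A B : Type} [Fintype B] (I : A → B → Prop) (T : Finset A) :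
    ∑ f ∈ T, (T.filter (fun g => g ≠ f ∧ (∃ z, I f z ∧ I g z) ∧
      ∀ z, I f z → I g z → (Dz I T z).card < 4)).card ≤ 2 * (PP I T).card := by
  have h1 : ∑ f ∈ T, (T.filter (fun g => g ≠ f ∧ (∃ z, I f z ∧ I g z) ∧
      ∀ z, I f z → I g z → (Dz I T z).card < 4)).card ≤
      ∑ f ∈ T, ∑ p ∈ PP I T, if f ∈ p then 1 else 0 := by
    refine Finset.sum_le_sum (fun f hf => ?_)
    rw [← Finset.card_filter]
    exact d_le I T f hf
  refine h1.trans ?_
  rw [Finset.sum_comm]
  have h2 : ∀ p ∈ PP I T, (∑ f ∈ T, if f ∈ p then 1 else 0) ≤ 2 := by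
    intro p hp
    rw [mem_PP] at hp
    rw [← Finset.card_filter, ← hp.1.2]
    refine Finset.card_le_card (fun f hf => ?_)
    exact (Finset.mem_filter.1 hf).2
  refine (Finset.sum_le_sum h2).trans ?_
  rw [Finset.sum_const, smul_eq_mul, mul_comm]

open Classical in
theorem hLFA (hC : StLFC) : StLFA := by
  intro A B _ I T hEH hT
  have h1 := hC A B I T hEH
  have hs := sum_s I T
  have hd := sum_d I T
  have hV : ∑ z ∈ V4 I T, (12 + 3 * (Dz I T z).card) ≤ ∑ z ∈ V4 I T, 6 * (Dz I T z).card := by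
    refine Finset.sum_le_sum (fun z hz => ?_)
    unfold V4 at hz
    have h4 := (Finset.mem_filter.1 hz).2
    omega
  rw [Finset.sum_add_distrib, Finset.sum_const, smul_eq_mul, ← Finset.mul_sum,
    ← Finset.mul_sum] at hV
  unfold LFc
  by_contra hcon
  push Not at hcon
  have h2 := Finset.sum_le_sum (s := T) (f := fun _ => 12) (g := fun f =>
    2 * (T.filter (fun g => g ≠ f ∧ (∃ z, I f z ∧ I g z) ∧
      ∀ z, I f z → I g z → (Dz I T z).card < 4)).card +
    3 * (Finset.univ.filter (fun z : B => 4 ≤ (Dz I T z).card ∧ I f z)).card) (by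
      intro f hf
      have h3 := hcon f hf
      omega)
  rw [Finset.sum_const, smul_eq_mul, Finset.sum_add_distrib, ← Finset.mul_sum,
    ← Finset.mul_sum, hs] at h2
  omega

end Pool.Agent.Helper27.NF
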